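import Mathlib

set_option autoImplicit false

open MvPowerSeries

namespace Pool.Agent.QH

/-- the ring of formal power series in `n` variables over `ℂ` -/
abbrev P (n : ℕ) := MvPowerSeries (Fin n) ℂ

/-- `I` contains the weighted homogeneous components (weights `d`) of its elements -/
def Graded {n : ℕ} (d : Fin n → ℕ) (I : Ideal (P n)) : Prop :=
  ∀ f ∈ I, ∀ k : ℕ, weightedHomogeneousComponent d k f ∈ I

/-- every `P`-linear map `I → P/I` comes from a derivation of `P` -/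
def Rigid {n : ℕ} (I : Ideal (P n)) : Prop :=
  ∀ φ : (↥I) →ₗ[P n] (P n ⧸ I), ∃ D : Derivation ℂ (P n) (P n),
    ∀ f : (↥I), φ f = Ideal.Quotient.mk I (D (f : P n))

/-- the derivation `P → P/I`, `f ↦ ∑ i, (∂f/∂x_i) t_i` -/
noncomputable def der {n : ℕ} (I : Ideal (P n)) (t : Fin n → P n ⧸ I) :
    Derivation ℂ (P n) (P n ⧸ I) :=
  ∑ i, (LinearMap.toSpanSingleton (P n) (P n ⧸ I) (t i)).compDer (pderiv ℂ i)


section QG0
theorem QG0 {n : ℕ} (g : P n) (h0 : constantCoeff g = 0) :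
    ∃ h : Fin n → P n, g = ∑ j, X j * h j ∧ ∀ j, constantCoeff (h j) = coeff (Finsupp.single j 1) g := by
  classical
  let H : Fin n → P n := fun j => (fun a =>
    if ∀ i, i < j → a i = 0 then coeff (a + Finsupp.single j 1) g else 0 : MvPowerSeries (Fin n) ℂ)
  have hH : ∀ (j : Fin n) (a : Fin n →₀ ℕ), coeff a (H j) =
      if ∀ i, i < j → a i = 0 then coeff (a + Finsupp.single j 1) g else 0 := fun j a => rfl
  refine ⟨H, ?_, ?_⟩
  · ext m
    rw [map_sum]
    have hterm : ∀ j : Fin n, coeff m (X j * H j) =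
        if (m j ≠ 0 ∧ ∀ i, i < j → m i = 0) then coeff m g else 0 := by
      intro j
      have hX : (X j : P n) = monomial (Finsupp.single j 1) (1 : ℂ) := rfl
      rw [hX, coeff_monomial_mul, one_mul]
      by_cases hj : m j = 0
      · rw [if_neg, if_neg]
        · intro h; exact h.1 hj
        · intro h
          have := h j
          simp [hj] at this
      · have hle : Finsupp.single j 1 ≤ m := by
          rw [Finsupp.single_le_iff]; omega
        rw [if_pos hle, hH, tsub_add_cancel_of_le hle]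
        have hiff : (∀ i, i < j → (m - Finsupp.single j 1 : Fin n →₀ ℕ) i = 0) ↔
            (m j ≠ 0 ∧ ∀ i, i < j → m i = 0) := by
          constructor
          · intro h
            refine ⟨hj, fun i hi => ?_⟩
            have := h i hi
            rw [Finsupp.tsub_apply, Finsupp.single_apply, if_neg (ne_of_gt hi)] at this
            simpa using this
          · rintro ⟨-, h⟩ i hi
            rw [Finsupp.tsub_apply, h i hi]; simp
        by_cases hc : (m j ≠ 0 ∧ ∀ i, i < j → m i = 0)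
        · rw [if_pos (hiff.2 hc), if_pos hc]
        · rw [if_neg (fun h => hc (hiff.1 h)), if_neg hc]
    rw [Finset.sum_congr rfl (fun j _ => hterm j)]
    by_cases hm : m = 0
    · subst hm
      rw [Finset.sum_eq_zero]
      · rw [← h0]; rfl
      · intro j _
        rw [if_neg]
        intro h; exact h.1 rfl
    · have hne : (m.support).Nonempty := by
        rw [Finset.nonempty_iff_ne_empty]
        intro h; exact hm (Finsupp.support_eq_empty.1 h)
      set j0 := m.support.min' hne with hj0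
      have hj0m : m j0 ≠ 0 := Finsupp.mem_support_iff.1 (Finset.min'_mem _ hne)
      have hlt : ∀ i, i < j0 → m i = 0 := by
        intro i hi
        by_contra hi0
        have := Finset.min'_le m.support i (Finsupp.mem_support_iff.2 hi0)
        exact absurd hi (not_lt.2 this)
      rw [Finset.sum_eq_single j0]
      · rw [if_pos ⟨hj0m, hlt⟩]
      · intro j _ hj
        rw [if_neg]
        rintro ⟨h1, h2⟩
        rcases lt_or_gt_of_ne hj with h | h
        · exact h1 (hlt j h)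
        · exact hj0m (h2 j0 h)
      · intro h; exact absurd (Finset.mem_univ _) h
  · intro j
    rw [← coeff_zero_eq_constantCoeff_apply, hH, zero_add]
    exact if_pos (fun i _ => rfl)

end QG0

section QG1
theorem QG1_assoc {A : Type*} [CommRing A] [IsNoetherianRing A] [IsLocalRing A] (x : A)
    (hx : IsLocalRing.maximalIdeal A = Ideal.span {x}) (a : A) (ha : a ≠ 0) :
    ∃ n : ℕ, Associated (x ^ n) a := by
  classical
  have hI : ⨅ i : ℕ, (IsLocalRing.maximalIdeal A) ^ i = ⊥ :=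
    Ideal.iInf_pow_eq_bot_of_isLocalRing _ (IsLocalRing.maximalIdeal.isMaximal A).ne_top
  have h1 : ∃ n : ℕ, ¬ x ^ n ∣ a := by
    by_contra hcon
    push Not at hcon
    apply ha
    have : a ∈ ⨅ i : ℕ, (IsLocalRing.maximalIdeal A) ^ i := by
      rw [Ideal.mem_iInf]
      intro i
      rw [hx, Ideal.span_singleton_pow, Ideal.mem_span_singleton]
      exact hcon i
    rw [hI] at this
    simpa using this
  have hspec := Nat.find_spec h1
  have hmin := fun m => Nat.find_min (H := h1) (m := m)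
  set N := Nat.find h1 with hN
  have hN0 : N ≠ 0 := by
    intro h0
    rw [h0] at hspec
    apply hspec
    simp
  obtain ⟨m, hm⟩ := Nat.exists_eq_succ_of_ne_zero hN0
  have hdiv : x ^ m ∣ a := by
    by_contra hcon
    exact hmin m (by omega) hcon
  obtain ⟨u, hu⟩ := hdiv
  have hunit : IsUnit u := by
    by_contra hnu
    have : u ∈ IsLocalRing.maximalIdeal A := (IsLocalRing.mem_maximalIdeal u).mpr hnu
    rw [hx, Ideal.mem_span_singleton] at this
    obtain ⟨v, hv⟩ := this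
    apply hspec
    rw [hm, hu, hv]
    exact ⟨v, by rw [Nat.succ_eq_add_one, pow_succ]; ring⟩
  refine ⟨m, hunit.unit, ?_⟩
  rw [hu]
  rfl

theorem QG1 {A : Type*} [CommRing A] [IsNoetherianRing A] [IsLocalRing A] (x : A)
    (hx : IsLocalRing.maximalIdeal A = Ideal.span {x}) : IsPrincipalIdealRing A := by
  classical
  refine ⟨fun J => ?_⟩
  by_cases hJ : J = ⊥
  · rw [hJ]
    exact ⟨0, by simp⟩
  obtain ⟨r, hr, hr0⟩ := Submodule.exists_mem_ne_zero_of_ne_bot hJ
  have hmem : ∀ (s : A), s ∈ J → s ≠ 0 → ∃ n : ℕ, x ^ n ∈ J ∧ x ^ n ∣ s := by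
    intro s hs hs0
    obtain ⟨n, u, hu⟩ := QG1_assoc x hx s hs0
    refine ⟨n, ?_, ⟨u, hu.symm⟩⟩
    have : x ^ n = s * ((u⁻¹ : Aˣ) : A) := by
      rw [← hu, mul_assoc, Units.mul_inv, mul_one]
    rw [this]
    exact J.mul_mem_right _ hs
  have hex : ∃ n : ℕ, x ^ n ∈ J := by
    obtain ⟨n, hn, _⟩ := hmem r hr hr0
    exact ⟨n, hn⟩
  refine ⟨x ^ (Nat.find hex), ?_⟩
  apply le_antisymm
  · intro s hs
    by_cases hs0 : s = 0
    · rw [hs0]
      exact zero_mem _
    obtain ⟨n, hn, hd⟩ := hmem s hs hs0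
    have h2 : Nat.find hex ≤ n := Nat.find_min' hex hn
    have h3 : x ^ (Nat.find hex) ∣ s := (pow_dvd_pow x h2).trans hd
    change s ∈ Ideal.span {x ^ (Nat.find hex)}
    exact Ideal.mem_span_singleton.mpr h3
  · change Ideal.span {x ^ (Nat.find hex)} ≤ J
    rw [Ideal.span_le, Set.singleton_subset_iff]
    exact Nat.find_spec hex

end QG1

section QA
theorem QA {n : ℕ} (I : Ideal (P n)) (t : Fin n → P n ⧸ I) :
    (∀ f : P n, der I t f = ∑ i, Ideal.Quotient.mk I (pderiv ℂ i f) * t i) ∧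
    (∀ i, der I t (X i) = t i) := by
  have h1 : ∀ f : P n, der I t f = ∑ i, Ideal.Quotient.mk I (pderiv ℂ i f) * t i := by
    intro f
    unfold der
    rw [← Derivation.coeFnAddMonoidHom_apply, map_sum, Finset.sum_apply]
    refine Finset.sum_congr rfl fun i _ => ?_
    rw [Derivation.coeFnAddMonoidHom_apply]
    show (LinearMap.toSpanSingleton (P n) (P n ⧸ I) (t i)) (pderiv ℂ i f) = _
    rw [LinearMap.toSpanSingleton_apply]
    obtain ⟨y, hy⟩ := Ideal.Quotient.mk_surjective (t i)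
    rw [← hy]
    rfl
  refine ⟨h1, fun i => ?_⟩
  classical
  rw [h1, Finset.sum_eq_single i]
  · rw [MvPowerSeries.pderiv_X_self, map_one, one_mul]
  · intro j _ hj
    rw [MvPowerSeries.pderiv_X_of_ne hj.symm, map_zero, zero_mul]
  · intro h
    exact absurd (Finset.mem_univ i) h

end QA

section QB
theorem QB {n : ℕ} {I : Ideal (P n)} (hr : Rigid I) (c : P n ⧸ I)
    (hc : c ∈ nonZeroDivisors (P n ⧸ I)) (θ : Derivation ℂ (P n) (P n ⧸ I))
    (hθ : ∀ f ∈ I, c ∣ θ f) :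
    ∃ δ : Derivation ℂ (P n) (P n ⧸ I), (∀ f ∈ I, δ f = 0) ∧ ∀ g, c ∣ δ g - θ g := by
  have hh0 : ∀ f : ↥I, ∃ y, θ (f : P n) = c * y := fun f => hθ f f.2
  choose h hh using hh0
  have hcan : ∀ a b : P n ⧸ I, c * a = c * b → a = b := fun a b hab =>
    (mul_cancel_left_mem_nonZeroDivisors hc).1 hab
  have hsm : ∀ (p : P n) (y : P n ⧸ I), p • y = Ideal.Quotient.mk I p * y := by
    intro p y
    obtain ⟨z, rfl⟩ := Ideal.Quotient.mk_surjective y
    rw [← map_mul]; rfl
  let φ : (↥I) →ₗ[P n] (P n ⧸ I) :=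
    { toFun := h
      map_add' := by
        intro f g
        apply hcan
        rw [← hh, mul_add, ← hh, ← hh, Submodule.coe_add, map_add]
      map_smul' := by
        intro p f
        apply hcan
        rw [← hh]
        have e : ((p • f : ↥I) : P n) = p * (f : P n) := rfl
        rw [e, Derivation.leibniz, hh f]
        have e2 : (f : P n) • θ p = 0 := by
          rw [hsm, Ideal.Quotient.eq_zero_iff_mem.2 f.2, zero_mul]
        rw [e2, add_zero, hsm, RingHom.id_apply, hsm]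
        ring }
  obtain ⟨D, hD⟩ := hr φ
  obtain ⟨c', hc'⟩ := Ideal.Quotient.mk_surjective c
  have hδ : ∀ g : P n, (θ - c' • ((Algebra.linearMap (P n) (P n ⧸ I)).compDer D)) g
      = θ g - c * Ideal.Quotient.mk I (D g) := by
    intro g
    rw [Derivation.sub_apply, Derivation.smul_apply, hsm, hc']
    rfl
  refine ⟨θ - c' • ((Algebra.linearMap (P n) (P n ⧸ I)).compDer D), ?_, ?_⟩
  · intro f hf
    rw [hδ f]
    have h1 := hD ⟨f, hf⟩
    have h2 : θ f = c * h ⟨f, hf⟩ := hh ⟨f, hf⟩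
    have h3 : h ⟨f, hf⟩ = Ideal.Quotient.mk I (D f) := h1
    rw [h2, h3, sub_self]
  · intro g
    rw [hδ g]
    exact ⟨-Ideal.Quotient.mk I (D g), by ring⟩

end QB

section QC
theorem QC_min {A : Type*} [CommRing A] [IsReduced A] {p : Ideal A} (hp : p ∈ minimalPrimes A)
    {x : A} (hx : x ∈ p) : ∃ y, y ∉ p ∧ y * x = 0 := by
  have hpp : p.IsPrime := hp.1.1
  by_contra hcon
  push Not at hcon
  have hdis : Disjoint ((⊥ : Ideal A) : Set A) ((p.primeCompl ⊔ Submonoid.powers x : Submonoid A) : Set A) := by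
    rw [Set.disjoint_left]
    intro z hz hz'
    have hz0 : z = 0 := by simpa using hz
    have hz2 : z ∈ (p.primeCompl ⊔ Submonoid.powers x : Submonoid A) := hz'
    rw [Submonoid.mem_sup] at hz2
    obtain ⟨y, hy, w, ⟨n, hn⟩, hyw⟩ := hz2
    have hy' : y ∉ p := hy
    apply hcon y hy'
    have h1 : (y * x) ^ (n + 1) = 0 := by
      have h2 : y * x ^ n = 0 := by
        have h3 : x ^ n = w := hn
        rw [h3, hyw, hz0]
      calc (y * x) ^ (n + 1) = (y * x ^ n) * (y ^ n * x) := by ring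
        _ = 0 := by rw [h2, zero_mul]
    exact pow_eq_zero_iff (Nat.succ_ne_zero n) |>.1 h1
  obtain ⟨q, hq, _, hqd⟩ := Ideal.exists_le_prime_disjoint (⊥ : Ideal A) _ hdis
  have hqp : q ≤ p := by
    intro z hz
    by_contra hzp
    exact Set.disjoint_left.1 hqd hz (Submonoid.mem_sup_left (S := p.primeCompl) hzp)
  have hpq : p ≤ q := hp.2 ⟨hq, bot_le⟩ hqp
  exact Set.disjoint_left.1 hqd (hpq hx) (Submonoid.mem_sup_right (Submonoid.mem_powers x))

theorem QC {n : ℕ} {I : Ideal (P n)} (hrad : I.IsRadical) {N e : ℕ} (hN : 0 < N) (he : 0 < e)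
    (x s : P n) (hs : Ideal.Quotient.mk I s ∈ nonZeroDivisors (P n ⧸ I))
    (hrel : ∀ p ∈ minimalPrimes (P n ⧸ I), ∃ α : ℂ,
      Ideal.Quotient.mk I (x ^ N - C α * s ^ e) ∈ p)
    (δ : Derivation ℂ (P n) (P n ⧸ I)) (hδ : ∀ f ∈ I, δ f = 0) :
    (N : P n ⧸ I) * Ideal.Quotient.mk I s * δ x = (e : P n ⧸ I) * Ideal.Quotient.mk I x * δ s := by
  have : IsReduced (P n ⧸ I) := (Ideal.isRadical_iff_quotient_reduced I).1 hrad
  have hsm : ∀ (f : P n) (a : P n ⧸ I), f • a = Ideal.Quotient.mk I f * a := by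
    intro f a
    obtain ⟨b, rfl⟩ := Ideal.Quotient.mk_surjective a
    rfl
  have hall : ∀ p ∈ minimalPrimes (P n ⧸ I),
      (N : P n ⧸ I) * Ideal.Quotient.mk I s * δ x - (e : P n ⧸ I) * Ideal.Quotient.mk I x * δ s ∈ p := by
    intro p hp
    have hpp : p.IsPrime := hp.1.1
    have hstab : ∀ f : P n, Ideal.Quotient.mk I f ∈ p → δ f ∈ p := by
      intro f hf
      obtain ⟨y, hy, hyf⟩ := QC_min hp hf
      obtain ⟨g, rfl⟩ := Ideal.Quotient.mk_surjective y
      have h1 : g * f ∈ I := by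
        rw [← Ideal.Quotient.eq_zero_iff_mem, map_mul]
        exact hyf
      have h2 := hδ _ h1
      rw [Derivation.leibniz, hsm, hsm] at h2
      have h3 : Ideal.Quotient.mk I g * δ f = -(Ideal.Quotient.mk I f * δ g) :=
        eq_neg_of_add_eq_zero_left h2
      have h4 : Ideal.Quotient.mk I g * δ f ∈ p := by
        rw [h3]
        exact p.neg_mem (p.mul_mem_right _ hf)
      exact (hpp.mem_or_mem h4).resolve_left hy
    obtain ⟨α, hα⟩ := hrel p hp
    have hsp : Ideal.Quotient.mk I s ∉ p := fun h =>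
      notMem_nonZeroDivisors_of_mem_mem_minimalPrimes h hp hs
    have hδy := hstab _ hα
    have hC : δ (C α : P n) = 0 := by
      have h1 : (C α : P n) = algebraMap ℂ (P n) α := rfl
      rw [h1, Derivation.map_algebraMap]
    have hexp : δ (x ^ N - C α * s ^ e) =
        (N : P n ⧸ I) * Ideal.Quotient.mk I x ^ (N - 1) * δ x -
        Ideal.Quotient.mk I (C α) * ((e : P n ⧸ I) * Ideal.Quotient.mk I s ^ (e - 1) * δ s) := by
      rw [map_sub, Derivation.leibniz_pow, Derivation.leibniz, hC, smul_zero, add_zero,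
        Derivation.leibniz_pow]
      simp only [hsm, nsmul_eq_mul, map_pow]
      ring
    rw [hexp] at hδy
    have : IsDomain ((P n ⧸ I) ⧸ p) := (Ideal.Quotient.isDomain_iff_prime p).2 hpp
    set π := Ideal.Quotient.mk p with hπ
    have hmem : ∀ a, a ∈ p ↔ π a = 0 := fun a => (Ideal.Quotient.eq_zero_iff_mem).symm
    rw [hmem] at hδy hα hsp ⊢
    simp only [map_sub, map_mul, map_pow, map_natCast] at hδy hα ⊢
    by_cases hx0 : π (Ideal.Quotient.mk I x) = 0
    · have h1 : π (δ x) = 0 := (hmem _).1 (hstab x ((hmem _).2 hx0))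
      rw [h1, hx0]
      ring
    · have hα0 : π (Ideal.Quotient.mk I (C α)) ≠ 0 := by
        intro h
        rw [h, zero_mul, sub_zero] at hα
        exact hx0 (pow_eq_zero_iff hN.ne' |>.1 hα)
      obtain ⟨N', rfl⟩ : ∃ N', N = N' + 1 := ⟨N - 1, by omega⟩
      obtain ⟨e', rfl⟩ : ∃ e', e = e' + 1 := ⟨e - 1, by omega⟩
      simp only [Nat.add_sub_cancel] at hδy
      have h5 : π (Ideal.Quotient.mk I (C α)) * π (Ideal.Quotient.mk I s) ^ e' ≠ 0 :=
        mul_ne_zero hα0 (pow_ne_zero _ hsp)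
      apply mul_left_cancel₀ h5
      rw [mul_zero]
      linear_combination (π (Ideal.Quotient.mk I x)) * hδy -
        ((N' + 1 : ℕ) : (P n ⧸ I) ⧸ p) * π (δ x) * hα
  have hW : (N : P n ⧸ I) * Ideal.Quotient.mk I s * δ x -
      (e : P n ⧸ I) * Ideal.Quotient.mk I x * δ s ∈ (⊥ : Ideal (P n ⧸ I)).radical := by
    rw [← Ideal.sInf_minimalPrimes]
    rw [Submodule.mem_sInf]
    intro p hp
    exact hall p hp
  obtain ⟨k, hk⟩ := hW
  have hk' : ((N : P n ⧸ I) * Ideal.Quotient.mk I s * δ x -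
      (e : P n ⧸ I) * Ideal.Quotient.mk I x * δ s) ^ k = 0 := by simpa using hk
  have h0 := IsReduced.eq_zero _ ⟨k, hk'⟩
  exact sub_eq_zero.1 h0

end QC

section QD1
theorem QD1_comp {n : ℕ} {d : Fin n → ℕ} (k : ℕ) (T : Finset (Fin n →₀ ℕ))
    (hT : ∀ a : Fin n →₀ ℕ, Finsupp.weight d a = k → a ∈ T) (f : P n) :
    weightedHomogeneousComponent d k f =
      ∑ a ∈ T, (if Finsupp.weight d a = k then coeff a f else 0) • (monomial a (1 : ℂ) : P n) := by
  classical
  ext b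
  rw [coeff_weightedHomogeneousComponent, map_sum]
  simp only [coeff_smul, coeff_monomial]
  by_cases hb : Finsupp.weight d b = k
  · rw [if_pos hb, Finset.sum_eq_single b]
    · simp [hb]
    · intro a _ hab
      simp [Ne.symm hab]
    · intro h
      exact absurd (hT b hb) h
  · rw [if_neg hb]
    symm
    apply Finset.sum_eq_zero
    intro a _
    by_cases hab : b = a
    · subst hab
      simp [hb]
    · simp [hab]

theorem QD1_mul {n : ℕ} {d : Fin n → ℕ} {N : ℕ} {s : P n}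
    (hsh : weightedHomogeneousComponent d N s = s) {k : ℕ} (hk : N ≤ k) (b : P n) :
    weightedHomogeneousComponent d k (s * b) =
      s * weightedHomogeneousComponent d (k - N) b := by
  classical
  have hs0 : ∀ p : Fin n →₀ ℕ, Finsupp.weight d p ≠ N → coeff p s = 0 := by
    intro p hp
    rw [← hsh, coeff_weightedHomogeneousComponent, if_neg hp]
  ext e
  rw [coeff_weightedHomogeneousComponent, coeff_mul, coeff_mul]
  by_cases he : Finsupp.weight d e = k
  · rw [if_pos he]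
    apply Finset.sum_congr rfl
    rintro ⟨p, q⟩ hpq
    rw [Finset.HasAntidiagonal.mem_antidiagonal] at hpq
    simp only at hpq ⊢
    by_cases hp : Finsupp.weight d p = N
    · rw [coeff_weightedHomogeneousComponent, if_pos]
      have : Finsupp.weight d p + Finsupp.weight d q = k := by
        rw [← map_add, hpq, he]
      omega
    · rw [hs0 p hp, zero_mul, zero_mul]
  · rw [if_neg he]
    symm
    apply Finset.sum_eq_zero
    rintro ⟨p, q⟩ hpq
    rw [Finset.HasAntidiagonal.mem_antidiagonal] at hpq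
    simp only at hpq ⊢
    by_cases hp : Finsupp.weight d p = N
    · rw [coeff_weightedHomogeneousComponent, if_neg, mul_zero]
      intro hq
      apply he
      rw [← hpq, map_add]
      omega
    · rw [hs0 p hp, zero_mul]

theorem QD1_mon {n : ℕ} (a : Fin n →₀ ℕ) :
    (monomial a (1 : ℂ) : P n) ∈
      (Ideal.span (Set.range (X : Fin n → P n))) ^ (∑ i, a i) := by
  classical
  have h1 : (monomial a (1 : ℂ) : P n) = ∏ i, (X i : P n) ^ (a i) := by
    rw [MvPowerSeries.monomial_eq', map_one, one_mul, Finsupp.prod_fintype]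
    intro i
    simp
  rw [h1, ← Finset.prod_pow_eq_pow_sum]
  apply Ideal.prod_mem_prod
  intro i _
  apply Ideal.pow_mem_pow
  exact Ideal.subset_span (Set.mem_range_self i)

theorem QD1_deg {n : ℕ} {d : Fin n → ℕ} {K k : ℕ} (a : Fin n →₀ ℕ)
    (ha : Finsupp.weight d a = k) (hk : K * (∑ i, d i) < k) : K ≤ ∑ i, a i := by
  by_contra h
  push Not at h
  have h1 : Finsupp.weight d a = ∑ i, a i * d i := by
    rw [Finsupp.weight_eq_sum]
    simp
  have h2 : ∑ i, a i * d i ≤ (∑ i, a i) * (∑ i, d i) := by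
    rw [Finset.sum_mul]
    apply Finset.sum_le_sum
    intro i _
    exact Nat.mul_le_mul_left _ (Finset.single_le_sum (fun j _ => Nat.zero_le (d j)) (Finset.mem_univ i))
  have h3 : (∑ i, a i) * (∑ i, d i) ≤ K * (∑ i, d i) := Nat.mul_le_mul_right _ h.le
  omega

theorem QD1_fin {n : ℕ} {d : Fin n → ℕ} (hd : ∀ i, 0 < d i) (I : Ideal (P n)) (k : ℕ) :
    Module.Finite ℂ (LinearMap.range ((Ideal.Quotient.mkₐ ℂ I).toLinearMap ∘ₗ
        (weightedHomogeneousComponent d k : P n →ₗ[ℂ] P n))) := by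
  classical
  have hfin := Finsupp.finite_of_nat_weight_eq d (fun x => (hd x).ne') k
  set T := hfin.toFinset with hT
  have hsub : LinearMap.range ((Ideal.Quotient.mkₐ ℂ I).toLinearMap ∘ₗ
        (weightedHomogeneousComponent d k : P n →ₗ[ℂ] P n)) ≤
      Submodule.span ℂ ((T.image (fun a => (Ideal.Quotient.mkₐ ℂ I) (monomial a (1 : ℂ) : P n)) :
        Finset (P n ⧸ I)) : Set (P n ⧸ I)) := by
    rintro _ ⟨f, rfl⟩
    rw [LinearMap.comp_apply, QD1_comp k T (fun a ha => by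
      rw [hT, Set.Finite.mem_toFinset]; exact ha), map_sum]
    apply Submodule.sum_mem
    intro a ha
    rw [map_smul]
    apply Submodule.smul_mem
    apply Submodule.subset_span
    rw [Finset.coe_image]
    exact ⟨a, ha, rfl⟩
  haveI : Module.Finite ℂ (Submodule.span ℂ ((T.image (fun a => (Ideal.Quotient.mkₐ ℂ I) (monomial a (1 : ℂ) : P n)) :
        Finset (P n ⧸ I)) : Set (P n ⧸ I))) := FiniteDimensional.span_finset ℂ _
  exact Submodule.finiteDimensional_of_le hsub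

theorem QD1_step {n : ℕ} {d : Fin n → ℕ} (hd : ∀ i, 0 < d i) {I : Ideal (P n)} (hg : Graded d I)
    {N : ℕ} {s : P n} (hsh : weightedHomogeneousComponent d N s = s)
    {K : ℕ} (hK : ∀ f ∈ (Ideal.span (Set.range (X : Fin n → P n))) ^ K,
      Ideal.Quotient.mk I s ∣ Ideal.Quotient.mk I f) {k : ℕ} (hNk : N ≤ k)
    (hk : K * (∑ i, d i) < k) :
    Module.finrank ℂ (LinearMap.range ((Ideal.Quotient.mkₐ ℂ I).toLinearMap ∘ₗ
        (weightedHomogeneousComponent d k : P n →ₗ[ℂ] P n))) ≤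
    Module.finrank ℂ (LinearMap.range ((Ideal.Quotient.mkₐ ℂ I).toLinearMap ∘ₗ
        (weightedHomogeneousComponent d (k - N) : P n →ₗ[ℂ] P n))) := by
  classical
  have hfin := Finsupp.finite_of_nat_weight_eq d (fun x => (hd x).ne') k
  set T := hfin.toFinset with hT
  haveI := QD1_fin hd I k
  haveI := QD1_fin hd I (k - N)
  have hsub : LinearMap.range ((Ideal.Quotient.mkₐ ℂ I).toLinearMap ∘ₗ
        (weightedHomogeneousComponent d k : P n →ₗ[ℂ] P n)) ≤
      Submodule.map (LinearMap.mulLeft ℂ (Ideal.Quotient.mk I s))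
        (LinearMap.range ((Ideal.Quotient.mkₐ ℂ I).toLinearMap ∘ₗ
        (weightedHomogeneousComponent d (k - N) : P n →ₗ[ℂ] P n))) := by
    rintro _ ⟨f, rfl⟩
    rw [LinearMap.comp_apply, QD1_comp k T (fun a ha => by
      rw [hT, Set.Finite.mem_toFinset]; exact ha), map_sum]
    apply Submodule.sum_mem
    intro a ha
    rw [map_smul]
    apply Submodule.smul_mem
    have hwa : Finsupp.weight d a = k := by
      rw [hT, Set.Finite.mem_toFinset] at ha
      exact ha
    have hmem : (monomial a (1 : ℂ) : P n) ∈ (Ideal.span (Set.range (X : Fin n → P n))) ^ K :=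
      Ideal.pow_le_pow_right (QD1_deg a hwa hk) (QD1_mon a)
    obtain ⟨c, hc⟩ := hK _ hmem
    obtain ⟨b, rfl⟩ := Ideal.Quotient.mk_surjective c
    rw [← map_mul, Ideal.Quotient.eq] at hc
    have h2 := hg _ hc k
    rw [map_sub, QD1_mul hsh hNk b] at h2
    have h3 : weightedHomogeneousComponent d k (monomial a (1 : ℂ) : P n) = monomial a (1 : ℂ) := by
      ext e
      rw [coeff_weightedHomogeneousComponent]
      by_cases hea : e = a
      · subst hea
        rw [if_pos hwa]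
      · rw [coeff_monomial_ne hea]
        simp
    rw [h3, ← Ideal.Quotient.eq, map_mul] at h2
    refine ⟨Ideal.Quotient.mk I (weightedHomogeneousComponent d (k - N) b), ⟨b, rfl⟩, ?_⟩
    rw [LinearMap.mulLeft_apply, ← h2]
    rfl
  haveI : Module.Finite ℂ (Submodule.map (LinearMap.mulLeft ℂ (Ideal.Quotient.mk I s))
        (LinearMap.range ((Ideal.Quotient.mkₐ ℂ I).toLinearMap ∘ₗ
        (weightedHomogeneousComponent d (k - N) : P n →ₗ[ℂ] P n)))) := Module.Finite.map _ _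
  exact (Submodule.finrank_mono hsub).trans (Submodule.finrank_map_le _ _)

theorem QD1 {n : ℕ} {d : Fin n → ℕ} (hd : ∀ i, 0 < d i) {I : Ideal (P n)} (hg : Graded d I)
    {N : ℕ} (hN : 0 < N) {s : P n} (hsh : weightedHomogeneousComponent d N s = s)
    {K : ℕ} (hK : ∀ f ∈ (Ideal.span (Set.range (X : Fin n → P n))) ^ K,
      Ideal.Quotient.mk I s ∣ Ideal.Quotient.mk I f) :
    ∃ M : ℕ, ∀ k : ℕ, Module.Finite ℂ (LinearMap.range ((Ideal.Quotient.mkₐ ℂ I).toLinearMap ∘ₗ
        (weightedHomogeneousComponent d k : P n →ₗ[ℂ] P n))) ∧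
      Module.finrank ℂ (LinearMap.range ((Ideal.Quotient.mkₐ ℂ I).toLinearMap ∘ₗ
        (weightedHomogeneousComponent d k : P n →ₗ[ℂ] P n))) ≤ M := by
  classical
  obtain ⟨g, hgdef⟩ : ∃ g : ℕ → ℕ, g = fun k => Module.finrank ℂ (LinearMap.range
    ((Ideal.Quotient.mkₐ ℂ I).toLinearMap ∘ₗ
        (weightedHomogeneousComponent d k : P n →ₗ[ℂ] P n))) := ⟨_, rfl⟩
  have hstep : ∀ k, N ≤ k → K * (∑ i, d i) < k → g k ≤ g (k - N) := by
    intro k h1 h2
    rw [hgdef]
    exact QD1_step hd hg hsh hK h1 h2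
  have key : ∀ k, g k ≤ (Finset.range (N + K * (∑ i, d i) + 1)).sup g := by
    intro k
    induction k using Nat.strong_induction_on with
    | _ k ih =>
      by_cases hk : k < N + K * (∑ i, d i) + 1
      · exact Finset.le_sup (Finset.mem_range.2 hk)
      · exact (hstep k (by omega) (by omega)).trans (ih (k - N) (by omega))
  refine ⟨(Finset.range (N + K * (∑ i, d i) + 1)).sup g, fun k => ⟨QD1_fin hd I k, ?_⟩⟩
  have := key k
  rw [hgdef] at this
  rw [hgdef]
  exact this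

end QD1

section QD2
theorem QD2_X {n : ℕ} (d : Fin n → ℕ) (i : Fin n) :
    IsWeightedHomogeneous d (X i : P n) (d i) := by
  intro m hm
  rw [coeff_X] at hm
  split_ifs at hm with h
  · rw [h]; simp [Finsupp.weight_apply]
  · exact absurd rfl hm

theorem QD2_pow {n : ℕ} (d : Fin n → ℕ) {f : P n} {p : ℕ} (hf : IsWeightedHomogeneous d f p)
    (k : ℕ) : IsWeightedHomogeneous d (f ^ k) (k * p) := by
  induction k with
  | zero =>
    intro m hm
    rw [pow_zero, coeff_one] at hm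
    split_ifs at hm with h
    · rw [h]; simp
    · exact absurd rfl hm
  | succ k ih => rw [pow_succ, Nat.succ_mul]; exact ih.mul hf

theorem QD2 {n : ℕ} {d : Fin n → ℕ} {I : Ideal (P n)}
    {N : ℕ} {s : P n} (hsh : weightedHomogeneousComponent d N s = s) {M : ℕ}
    (hM : ∀ k : ℕ, Module.Finite ℂ (LinearMap.range ((Ideal.Quotient.mkₐ ℂ I).toLinearMap ∘ₗ
        (weightedHomogeneousComponent d k : P n →ₗ[ℂ] P n))) ∧
      Module.finrank ℂ (LinearMap.range ((Ideal.Quotient.mkₐ ℂ I).toLinearMap ∘ₗ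
        (weightedHomogeneousComponent d k : P n →ₗ[ℂ] P n))) ≤ M) (i : Fin n) :
    ∃ c : Fin (M + 1) → ℂ, c ≠ 0 ∧
      ∑ j : Fin (M + 1), C (c j) * ((X i ^ N) ^ (j : ℕ) * (s ^ (d i)) ^ (M - (j : ℕ))) ∈ I := by
  classical
  set e : Fin (M + 1) → P n := fun j => (X i ^ N) ^ (j : ℕ) * (s ^ (d i)) ^ (M - (j : ℕ)) with he
  have hs : IsWeightedHomogeneous d s N :=
    isWeightedHomogeneous_iff_eq_weightedHomogeneousComponent.2 hsh.symm
  have hhom : ∀ j : Fin (M + 1), IsWeightedHomogeneous d (e j) (M * (N * d i)) := by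
    intro j
    have h1 : IsWeightedHomogeneous d (e j) ((j : ℕ) * (N * d i) + (M - (j : ℕ)) * (d i * N)) :=
      IsWeightedHomogeneous.mul (QD2_pow d (QD2_pow d (QD2_X d i) N) (j : ℕ))
        (QD2_pow d (QD2_pow d hs (d i)) (M - (j : ℕ)))
    have h2 : (j : ℕ) * (N * d i) + (M - (j : ℕ)) * (d i * N) = M * (N * d i) := by
      have : (j : ℕ) + (M - (j : ℕ)) = M := by have := j.2; omega
      calc (j : ℕ) * (N * d i) + (M - (j : ℕ)) * (d i * N)
          = ((j : ℕ) + (M - (j : ℕ))) * (N * d i) := by ring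
        _ = _ := by rw [this]
    intro m hm
    rw [← h2]
    exact h1 hm
  obtain ⟨hfin, hrk⟩ := hM (M * (N * d i))
  let V := LinearMap.range ((Ideal.Quotient.mkₐ ℂ I).toLinearMap ∘ₗ
        (weightedHomogeneousComponent d (M * (N * d i)) : P n →ₗ[ℂ] P n))
  have hmem : ∀ j, (Ideal.Quotient.mkₐ ℂ I) (e j) ∈ V := by
    intro j
    refine ⟨e j, ?_⟩
    rw [LinearMap.comp_apply, ← isWeightedHomogeneous_iff_eq_weightedHomogeneousComponent.1 (hhom j)]
    rfl
  let v : Fin (M + 1) → V := fun j => ⟨_, hmem j⟩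
  have hdep : ¬ LinearIndependent ℂ v := by
    intro hli
    haveI := hfin
    have := hli.fintype_card_le_finrank
    rw [Fintype.card_fin] at this
    have h3 := this.trans hrk
    omega
  obtain ⟨c, hc, j0, hj0⟩ := Fintype.not_linearIndependent_iff.1 hdep
  refine ⟨c, fun h => hj0 (congrFun h j0), ?_⟩
  rw [← Ideal.Quotient.eq_zero_iff_mem]
  have h4 := congrArg (Subtype.val) hc
  have h5 : (∑ j, c j • (Ideal.Quotient.mkₐ ℂ I) (e j)) = 0 := by
    have : ((∑ j, c j • v j : V) : P n ⧸ I) = ∑ j, c j • (Ideal.Quotient.mkₐ ℂ I) (e j) := by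
      rw [AddSubmonoidClass.coe_finset_sum]
      rfl
    rw [← this, h4]
    rfl
  rw [map_sum]
  rw [← h5]
  refine Finset.sum_congr rfl fun j _ => ?_
  rw [← MvPowerSeries.smul_eq_C_mul]
  exact map_smul (Ideal.Quotient.mkₐ ℂ I) (c j) (e j)

end QD2

section QD3
theorem QD3_root {F : Type*} [Field F] (ι : ℂ →+* F) (f : Polynomial ℂ) (hf : f ≠ 0) (ξ : F)
    (h : f.eval₂ ι ξ = 0) : ∃ α : ℂ, ξ = ι α := by
  have hprod := (IsAlgClosed.splits f).eq_prod_roots
  rw [hprod, Polynomial.eval₂_mul, Polynomial.eval₂_C] at h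
  have hl : ι f.leadingCoeff ≠ 0 := by
    rw [Ne, _root_.map_eq_zero, Polynomial.leadingCoeff_eq_zero]
    exact hf
  have h2 := (mul_eq_zero.mp h).resolve_left hl
  rw [Polynomial.eval₂_multiset_prod, Multiset.prod_eq_zero_iff, Multiset.map_map] at h2
  obtain ⟨α, -, hα⟩ := Multiset.mem_map.mp h2
  refine ⟨α, ?_⟩
  simp only [Function.comp, Polynomial.eval₂_sub, Polynomial.eval₂_X, Polynomial.eval₂_C] at hα
  exact sub_eq_zero.mp hα

theorem QD3_field {R F : Type*} [CommRing R] [Field F] (ρ : R →+* F) (ι : ℂ →+* R) (x s : R)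
    (hs : ρ s ≠ 0) {M : ℕ} (c : Fin (M + 1) → ℂ) (hc : c ≠ 0)
    (h : ρ (∑ j : Fin (M + 1), ι (c j) * (x ^ (j : ℕ) * s ^ (M - (j : ℕ)))) = 0) :
    ∃ α : ℂ, ρ (x - ι α * s) = 0 := by
  let f : Polynomial ℂ := ∑ j : Fin (M + 1), Polynomial.monomial (j : ℕ) (c j)
  have hcoeff : ∀ j : Fin (M + 1), f.coeff j = c j := by
    intro j
    simp only [f, Polynomial.finsetSum_coeff, Polynomial.coeff_monomial]
    rw [Finset.sum_eq_single j]
    · simp
    · intro b _ hb
      rw [if_neg]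
      intro h
      exact hb (Fin.ext h)
    · intro h
      exact absurd (Finset.mem_univ j) h
  have hf : f ≠ 0 := by
    intro h0
    apply hc
    funext j
    rw [← hcoeff j, h0]
    simp
  have heval : f.eval₂ (ρ.comp ι) (ρ x / ρ s) = 0 := by
    simp only [f, Polynomial.eval₂_finsetSum, Polynomial.eval₂_monomial]
    have h1 : (∑ j : Fin (M + 1), (ρ.comp ι) (c j) * (ρ x / ρ s) ^ (j : ℕ)) * ρ s ^ M = 0 := by
      rw [Finset.sum_mul, ← h, map_sum]
      refine Finset.sum_congr rfl fun j _ => ?_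
      rw [map_mul, map_mul, map_pow, map_pow, RingHom.comp_apply]
      have hj : (j : ℕ) ≤ M := Nat.lt_succ_iff.mp j.2
      have e : ρ s ^ M = ρ s ^ (j : ℕ) * ρ s ^ (M - (j : ℕ)) := by
        rw [← pow_add]
        congr 1
        omega
      rw [e, div_pow]
      field_simp
    exact (mul_eq_zero.mp h1).resolve_right (pow_ne_zero _ hs)
  obtain ⟨α, hα⟩ := QD3_root (ρ.comp ι) f hf _ heval
  refine ⟨α, ?_⟩
  rw [map_sub, map_mul, sub_eq_zero]
  rw [div_eq_iff hs] at hα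
  exact hα

theorem QD3_quot {R A : Type*} [CommRing R] [CommRing A] (π : R →+* A) (ι : ℂ →+* R) (p : Ideal A)
    [p.IsPrime] (x s : R) (hs : π s ∉ p) {M : ℕ} (c : Fin (M + 1) → ℂ) (hc : c ≠ 0)
    (h : π (∑ j : Fin (M + 1), ι (c j) * (x ^ (j : ℕ) * s ^ (M - (j : ℕ)))) ∈ p) :
    ∃ α : ℂ, π (x - ι α * s) ∈ p := by
  have hker : ∀ f : R, (((algebraMap (A ⧸ p) (FractionRing (A ⧸ p))).comp
      (Ideal.Quotient.mk p)).comp π) f = 0 ↔ π f ∈ p := by
    intro f
    rw [RingHom.comp_apply, RingHom.comp_apply,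
      map_eq_zero_iff _ (IsFractionRing.injective (A ⧸ p) (FractionRing (A ⧸ p))),
      Ideal.Quotient.eq_zero_iff_mem]
  obtain ⟨α, hα⟩ := QD3_field _ ι x s (mt (hker s).mp hs) c hc ((hker _).mpr h)
  exact ⟨α, (hker _).mp hα⟩

theorem QD3 {n : ℕ} {I : Ideal (P n)} (p : Ideal (P n ⧸ I)) [p.IsPrime] (x s : P n)
    (hs : Ideal.Quotient.mk I s ∉ p) {M : ℕ} (c : Fin (M + 1) → ℂ) (hc : c ≠ 0)
    (h : ∑ j : Fin (M + 1), C (c j) * (x ^ (j : ℕ) * s ^ (M - (j : ℕ))) ∈ I) :
    ∃ α : ℂ, Ideal.Quotient.mk I (x - C α * s) ∈ p := by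
  have h' : Ideal.Quotient.mk I (∑ j : Fin (M + 1), C (c j) * (x ^ (j : ℕ) * s ^ (M - (j : ℕ)))) ∈ p := by
    rw [Ideal.Quotient.eq_zero_iff_mem.mpr h]
    exact p.zero_mem
  exact QD3_quot (Ideal.Quotient.mk I) (C : ℂ →+* P n) p x s hs c hc h'

end QD3

section QE1
theorem QE1 {n : ℕ} {I : Ideal (P n)} (hdim : ringKrullDim (P n ⧸ I) = 1)
    (p : Ideal (P n ⧸ I)) (hp : p ∈ minimalPrimes (P n ⧸ I)) :
    ∃ i, Ideal.Quotient.mk I (X i) ∉ p := by
  by_contra hcon
  have hX : ∀ i, Ideal.Quotient.mk I (X i) ∈ p := by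
    intro i
    by_contra h1
    exact hcon ⟨i, h1⟩
  have hmem : ∀ f : P n, constantCoeff f = 0 → Ideal.Quotient.mk I f ∈ p := by
    intro f hf
    obtain ⟨h, hfh, _⟩ := QG0 f hf
    rw [hfh, map_sum]
    refine Ideal.sum_mem _ fun j _ => ?_
    rw [map_mul]
    exact Ideal.mul_mem_right _ _ (hX j)
  have hpp : p.IsPrime := hp.1.1
  have hq : ∀ q : Ideal (P n ⧸ I), q.IsPrime → q = p := by
    intro q hq
    have hle : q ≤ p := by
      intro a ha
      obtain ⟨f, rfl⟩ := Ideal.Quotient.mk_surjective a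
      by_cases hf : constantCoeff f = 0
      · exact hmem f hf
      · exfalso
        have hu : IsUnit f := MvPowerSeries.isUnit_iff_constantCoeff.2 (isUnit_iff_ne_zero.2 hf)
        exact hq.ne_top (Ideal.eq_top_of_isUnit_mem q ha (hu.map (Ideal.Quotient.mk I)))
    exact le_antisymm hle (hp.2 ⟨hq, bot_le⟩ hle)
  have hsub : Subsingleton (PrimeSpectrum (P n ⧸ I)) := by
    refine ⟨fun x y => ?_⟩
    apply PrimeSpectrum.ext
    rw [hq x.asIdeal x.isPrime, hq y.asIdeal y.isPrime]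
  have h0 : ringKrullDim (P n ⧸ I) ≤ 0 := Order.krullDim_nonpos_of_subsingleton
  rw [hdim] at h0
  exact absurd h0 (by decide)

end QE1

section QE
theorem QE_comp {n : ℕ} (d : Fin n → ℕ) (N m : ℕ) (i : Fin n) (h : m * d i = N) :
    weightedHomogeneousComponent d N ((X i : P n) ^ m) = (X i : P n) ^ m := by
  classical
  ext e
  rw [coeff_weightedHomogeneousComponent, X_pow_eq, coeff_monomial]
  by_cases he : e = Finsupp.single i m
  · subst he
    have : Finsupp.weight d (Finsupp.single i m) = N := by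
      rw [Finsupp.weight_apply, Finsupp.sum_single_index (by simp)]
      simpa using h
    rw [if_pos this]
  · rw [if_neg he]
    simp

theorem QE {n : ℕ} {d : Fin n → ℕ} (hd : ∀ i, 0 < d i) {I : Ideal (P n)} (hrad : I.IsRadical)
    (hdim : ringKrullDim (P n ⧸ I) = 1) :
    ∃ (N : ℕ) (s : P n), 0 < N ∧ weightedHomogeneousComponent d N s = s ∧
      constantCoeff s = 0 ∧ Ideal.Quotient.mk I s ∈ nonZeroDivisors (P n ⧸ I) := by
  classical
  set N : ℕ := ∏ i, d i with hN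
  have hNpos : 0 < N := Finset.prod_pos fun i _ => hd i
  have hdvd : ∀ i, d i ∣ N := fun i => Finset.dvd_prod_of_mem d (Finset.mem_univ i)
  set m : Fin n → ℕ := fun i => N / d i with hm
  have hmd : ∀ i, m i * d i = N := fun i => Nat.div_mul_cancel (hdvd i)
  have hm0 : ∀ i, m i ≠ 0 := by
    intro i h
    have := hmd i
    rw [h, zero_mul] at this
    omega
  set y : Fin n → P n := fun i => (X i : P n) ^ m i with hy
  have : IsNoetherianRing (P n ⧸ I) := inferInstance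
  have hfin : (minimalPrimes (P n ⧸ I)).Finite := minimalPrimes.finite_of_isNoetherianRing _
  have : Finite (minimalPrimes (P n ⧸ I)) := hfin
  let L : (Fin n → ℂ) →ₗ[ℂ] (P n ⧸ I) :=
    Fintype.linearCombination ℂ (fun i => Ideal.Quotient.mkₐ ℂ I (y i))
  let W : minimalPrimes (P n ⧸ I) → Subspace ℂ (Fin n → ℂ) := fun p =>
    (Submodule.restrictScalars ℂ (p.1 : Submodule (P n ⧸ I) (P n ⧸ I))).comap L
  have hex : ∃ c : Fin n → ℂ, ∀ p ∈ minimalPrimes (P n ⧸ I), L c ∉ p := by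
    by_contra hcon
    push Not at hcon
    have hcov : ⋃ p, (W p : Set (Fin n → ℂ)) = Set.univ := by
      rw [Set.eq_univ_iff_forall]
      intro c
      obtain ⟨p, hp, hc⟩ := hcon c
      exact Set.mem_iUnion.2 ⟨⟨p, hp⟩, hc⟩
    obtain ⟨⟨p, hp⟩, htop⟩ := Subspace.exists_eq_top_of_iUnion_eq_univ hcov
    obtain ⟨i, hi⟩ := QE1 hdim p hp
    have hpp : p.IsPrime := hp.1.1
    apply hi
    have h1 : Pi.single i (1 : ℂ) ∈ W ⟨p, hp⟩ := by rw [htop]; trivial
    have h2 : L (Pi.single i (1 : ℂ)) ∈ p := h1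
    have h3 : L (Pi.single i (1 : ℂ)) = Ideal.Quotient.mk I (X i) ^ m i := by
      show Fintype.linearCombination ℂ _ (Pi.single i (1 : ℂ)) = _
      rw [Fintype.linearCombination_apply_single, one_smul]
      show Ideal.Quotient.mk I ((X i : P n) ^ m i) = _
      rw [map_pow]
    rw [h3] at h2
    exact hpp.mem_of_pow_mem _ h2
  obtain ⟨c, hc⟩ := hex
  refine ⟨N, ∑ i, c i • y i, hNpos, ?_, ?_, ?_⟩
  · rw [map_sum]
    refine Finset.sum_congr rfl fun i _ => ?_
    rw [map_smul, QE_comp d N (m i) i (hmd i)]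
  · rw [map_sum]
    refine Finset.sum_eq_zero fun i _ => ?_
    rw [smul_eq_C_mul, map_mul, map_pow, constantCoeff_X, zero_pow (hm0 i), mul_zero]
  · have hmk : Ideal.Quotient.mk I (∑ i, c i • y i) = L c := by
      show Ideal.Quotient.mkₐ ℂ I (∑ i, c i • y i) = Fintype.linearCombination ℂ _ c
      rw [map_sum, Fintype.linearCombination_apply]
      refine Finset.sum_congr rfl fun i _ => ?_
      rw [map_smul]
    rw [hmk, mem_nonZeroDivisors_iff_right]
    intro b hb
    have hred : IsReduced (P n ⧸ I) := (Ideal.isRadical_iff_quotient_reduced I).1 hrad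
    have hb' : b ∈ sInf (Ideal.minimalPrimes (⊥ : Ideal (P n ⧸ I))) := by
      rw [Ideal.mem_sInf]
      intro p hp
      have hpp : p.IsPrime := hp.1.1
      have h0 : b * L c ∈ p := by rw [hb]; exact p.zero_mem
      rcases hpp.mem_or_mem h0 with h | h
      · exact h
      · exact absurd h (hc p hp)
    rw [Ideal.sInf_minimalPrimes] at hb'
    obtain ⟨k, hk⟩ := hb'
    exact (IsNilpotent.eq_zero ⟨k, by simpa using hk⟩)

end QE

section QF
theorem QF_nonunit {n : ℕ} {I : Ideal (P n)} [Nontrivial (P n ⧸ I)] {s : P n}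
    (hs0 : constantCoeff s = 0) : ¬ Ideal.Quotient.mk I s ∣ 1 := by
  rintro ⟨c, hc⟩
  obtain ⟨c', rfl⟩ := Ideal.Quotient.mk_surjective c
  rw [← map_mul, ← map_one (Ideal.Quotient.mk I), Ideal.Quotient.eq] at hc
  have hu : IsUnit (1 - s * c' : P n) := by
    rw [isUnit_iff_constantCoeff]
    simp [hs0]
  have htop : I = ⊤ := Ideal.eq_top_of_isUnit_mem I hc hu
  subst htop
  exact absurd (inferInstance : Subsingleton (P n ⧸ (⊤ : Ideal (P n)))) (not_subsingleton _)

theorem QF_mem_max {n : ℕ} (f : P n) : f ∈ IsLocalRing.maximalIdeal (P n) ↔ constantCoeff f = 0 := by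
  rw [IsLocalRing.mem_maximalIdeal, mem_nonunits_iff, isUnit_iff_constantCoeff, isUnit_iff_ne_zero,
    not_not]

theorem QF_max {n : ℕ} {I : Ideal (P n)} (hdim : ringKrullDim (P n ⧸ I) = 1) {s : P n}
    (hs : Ideal.Quotient.mk I s ∈ nonZeroDivisors (P n ⧸ I)) :
    ∃ K : ℕ, (IsLocalRing.maximalIdeal (P n)) ^ K ≤
      Ideal.comap (Ideal.Quotient.mk I) (Ideal.span {Ideal.Quotient.mk I s}) := by
  have h1 := ringKrullDim_quotient_succ_le_of_nonZeroDivisor hs
  rw [hdim] at h1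
  have h0 : ringKrullDim ((P n ⧸ I) ⧸ Ideal.span {Ideal.Quotient.mk I s}) ≤ (0 : ℕ) := by
    generalize ringKrullDim ((P n ⧸ I) ⧸ Ideal.span {Ideal.Quotient.mk I s}) = x at h1
    induction x using WithBot.recBotCoe with
    | bot => exact bot_le
    | coe y =>
      have h2 : y + 1 ≤ 1 := by exact_mod_cast h1
      have h3 : y ≤ 0 := by
        rcases eq_or_ne y ⊤ with hy | hy
        · rw [hy] at h2; simp at h2
        · lift y to ℕ using hy
          have h4 : y + 1 ≤ 1 := by exact_mod_cast h2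
          have h5 : y = 0 := by omega
          rw [h5]; simp
      exact_mod_cast h3
  haveI hK0 : Ring.KrullDimLE 0 ((P n ⧸ I) ⧸ Ideal.span {Ideal.Quotient.mk I s}) :=
    Ring.krullDimLE_iff.mpr h0
  set J := Ideal.comap (Ideal.Quotient.mk I) (Ideal.span {Ideal.Quotient.mk I s}) with hJ
  refine Ideal.exists_pow_le_of_le_radical_of_fg ?_ (IsNoetherian.noetherian _)
  rw [Ideal.radical_eq_sInf]
  refine le_sInf ?_
  rintro Q ⟨hJQ, hQ⟩
  let φ : P n →+* (P n ⧸ I) ⧸ Ideal.span {Ideal.Quotient.mk I s} :=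
    (Ideal.Quotient.mk (Ideal.span {Ideal.Quotient.mk I s})).comp (Ideal.Quotient.mk I)
  have hφ : Function.Surjective φ :=
    Ideal.Quotient.mk_surjective.comp Ideal.Quotient.mk_surjective
  have hker : RingHom.ker φ ≤ Q := by
    intro f hf
    apply hJQ
    rw [RingHom.mem_ker] at hf
    have h6 : Ideal.Quotient.mk (Ideal.span {Ideal.Quotient.mk I s}) (Ideal.Quotient.mk I f) = 0 := hf
    rw [Ideal.Quotient.eq_zero_iff_mem] at h6
    exact h6
  have hQ' : (Q.map φ).IsPrime := Ideal.map_isPrime_of_surjective hφ hker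
  have hQmax : (Q.map φ).IsMaximal := Ring.krullDimLE_zero_iff.mp hK0 _ hQ'
  have hcomap : (Q.map φ).comap φ = Q := by
    rw [Ideal.comap_map_of_surjective φ hφ]
    exact sup_eq_left.mpr hker
  have hQm : Q.IsMaximal := by
    rw [← hcomap]
    exact Ideal.comap_isMaximal_of_surjective φ hφ
  rw [IsLocalRing.eq_maximalIdeal hQm]

theorem QF {n : ℕ} {I : Ideal (P n)} (hdim : ringKrullDim (P n ⧸ I) = 1) {s : P n}
    (hs0 : constantCoeff s = 0) (hs : Ideal.Quotient.mk I s ∈ nonZeroDivisors (P n ⧸ I)) :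
    (∃ K : ℕ, ∀ f ∈ (Ideal.span (Set.range (X : Fin n → P n))) ^ K,
      Ideal.Quotient.mk I s ∣ Ideal.Quotient.mk I f) ∧
    ∃ z : P n ⧸ I, ¬ Ideal.Quotient.mk I s ∣ z ∧
      ∀ f : P n, constantCoeff f = 0 →
        Ideal.Quotient.mk I s ∣ Ideal.Quotient.mk I f * z := by
  haveI hA : Nontrivial (P n ⧸ I) := by
    by_contra h
    rw [not_nontrivial_iff_subsingleton] at h
    rw [ringKrullDim_eq_bot_of_subsingleton] at hdim
    exact absurd hdim (by simp)
  have hex := QF_max hdim hs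
  have hJ : ∀ f : P n, f ∈ Ideal.comap (Ideal.Quotient.mk I) (Ideal.span {Ideal.Quotient.mk I s}) ↔
      Ideal.Quotient.mk I s ∣ Ideal.Quotient.mk I f := by
    intro f
    rw [Ideal.mem_comap, Ideal.mem_span_singleton]
  constructor
  · obtain ⟨K, hK⟩ := hex
    refine ⟨K, fun f hf => ?_⟩
    rw [← hJ]
    apply hK
    refine Ideal.pow_right_mono ?_ K hf
    rw [Ideal.span_le]
    rintro _ ⟨i, rfl⟩
    rw [SetLike.mem_coe, QF_mem_max]
    simp
  · classical
    obtain ⟨K, hK, hmin⟩ : ∃ K, (IsLocalRing.maximalIdeal (P n)) ^ K ≤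
      Ideal.comap (Ideal.Quotient.mk I) (Ideal.span {Ideal.Quotient.mk I s}) ∧ ∀ k < K,
      ¬ (IsLocalRing.maximalIdeal (P n)) ^ k ≤
      Ideal.comap (Ideal.Quotient.mk I) (Ideal.span {Ideal.Quotient.mk I s}) :=
      ⟨Nat.find hex, Nat.find_spec hex, fun k hk => Nat.find_min hex hk⟩
    rcases K with _ | k
    · exfalso
      rw [pow_zero, Ideal.one_eq_top] at hK
      have h1 : (1 : P n) ∈ Ideal.comap (Ideal.Quotient.mk I) (Ideal.span {Ideal.Quotient.mk I s}) :=
        hK Submodule.mem_top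
      rw [hJ, map_one] at h1
      exact QF_nonunit hs0 h1
    · have h1 := hmin k (Nat.lt_succ_self k)
      rw [SetLike.not_le_iff_exists] at h1
      obtain ⟨z, hz, hz'⟩ := h1
      refine ⟨Ideal.Quotient.mk I z, ?_, ?_⟩
      · rw [← hJ]; exact hz'
      · intro f hf
        rw [← map_mul, ← hJ]
        apply hK
        rw [pow_succ']
        exact Ideal.mul_mem_mul ((QF_mem_max f).2 hf) hz

end QF

section QG2
theorem QG2_decomp {n : ℕ} (v : Fin n → ℂ) : v = ∑ j, v j • (Pi.single j 1 : Fin n → ℂ) := by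
  ext i
  simp [Finset.sum_apply, Pi.single_apply]

theorem QG2_ex {n : ℕ} (U : Submodule ℂ (Fin n → ℂ)) (h : U ≠ ⊤) :
    ∃ a, (Pi.single a 1 : Fin n → ℂ) ∉ U := by
  by_contra hcon
  push Not at hcon
  apply h
  rw [Submodule.eq_top_iff']
  intro v
  rw [QG2_decomp v]
  exact Submodule.sum_mem _ fun j _ => Submodule.smul_mem _ _ (hcon j)

theorem QG2_fun {n : ℕ} {d : Fin n → ℕ} (U : Submodule ℂ (Fin n → ℂ))
    (hgr : ∀ u ∈ U, ∀ w : ℕ, (fun j => if d j = w then u j else 0) ∈ U)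
    (a b : Fin n)
    (ha : (Pi.single a 1 : Fin n → ℂ) ∉ U ⊔ Submodule.span ℂ {(Pi.single b 1 : Fin n → ℂ)}) :
    ∃ l : Fin n → ℂ, l a = 1 ∧ l b = 0 ∧ (∀ j, l j ≠ 0 → d j = d a) ∧
      (∀ u ∈ U, ∑ j, u j * l j = 0) := by
  obtain ⟨f, hfa, hf⟩ := Submodule.exists_le_ker_of_notMem ha
  have hb : f (Pi.single b 1) = 0 := by
    have : (Pi.single b 1 : Fin n → ℂ) ∈ U ⊔ Submodule.span ℂ {(Pi.single b 1 : Fin n → ℂ)} :=
      Submodule.mem_sup_right (Submodule.mem_span_singleton_self _)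
    exact LinearMap.mem_ker.mp (hf this)
  refine ⟨fun j => if d j = d a then (f (Pi.single a 1))⁻¹ * f (Pi.single j 1) else 0, ?_, ?_, ?_, ?_⟩
  · simp [hfa]
  · simp [hb]
  · intro j hj
    by_contra hne
    exact hj (by simp [hne])
  · intro u hu
    have h1 := hgr u hu (d a)
    have h2 : f (fun j => if d j = d a then u j else 0) = 0 :=
      LinearMap.mem_ker.mp (hf (Submodule.mem_sup_left h1))
    rw [QG2_decomp (fun j => if d j = d a then u j else 0), map_sum] at h2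
    simp only [map_smul, smul_eq_mul] at h2
    have h3 : ∑ j, u j * (if d j = d a then (f (Pi.single a 1))⁻¹ * f (Pi.single j 1) else 0) =
        (f (Pi.single a 1))⁻¹ * ∑ j, (if d j = d a then u j else 0) * f (Pi.single j 1) := by
      rw [Finset.mul_sum]
      refine Finset.sum_congr rfl fun j _ => ?_
      split_ifs
      · ring
      · ring
    rw [h3, h2, mul_zero]

theorem QG2 {n : ℕ} {d : Fin n → ℕ} (U : Submodule ℂ (Fin n → ℂ))
    (h0 : U ≠ ⊤) (h1 : ∀ a, U ⊔ Submodule.span ℂ {(Pi.single a 1 : Fin n → ℂ)} ≠ ⊤)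
    (hgr : ∀ u ∈ U, ∀ w : ℕ, (fun j => if d j = w then u j else 0) ∈ U) :
    ∃ (a b : Fin n) (l1 l2 : Fin n → ℂ), l1 a = 1 ∧ l1 b = 0 ∧ l2 a = 0 ∧ l2 b = 1 ∧
      (∀ j, l1 j ≠ 0 → d j = d a) ∧ (∀ j, l2 j ≠ 0 → d j = d b) ∧
      (∀ u ∈ U, ∑ j, u j * l1 j = 0) ∧ (∀ u ∈ U, ∑ j, u j * l2 j = 0) := by
  obtain ⟨a, ha⟩ := QG2_ex U h0
  obtain ⟨b, hb⟩ := QG2_ex _ (h1 a)
  have hab : (Pi.single a 1 : Fin n → ℂ) ∉ U ⊔ Submodule.span ℂ {(Pi.single b 1 : Fin n → ℂ)} := by
    intro hmem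
    obtain ⟨u, hu, w, hw, huw⟩ := Submodule.mem_sup.mp hmem
    obtain ⟨c, rfl⟩ := Submodule.mem_span_singleton.mp hw
    by_cases hc : c = 0
    · subst hc
      rw [zero_smul, add_zero] at huw
      exact ha (huw ▸ hu)
    · apply hb
      have : (Pi.single b 1 : Fin n → ℂ) = -(c⁻¹ • u) + c⁻¹ • (Pi.single a 1 : Fin n → ℂ) := by
        rw [← huw, smul_add, smul_smul, inv_mul_cancel₀ hc, one_smul]
        abel
      rw [this]
      exact Submodule.add_mem _ (Submodule.mem_sup_left (Submodule.neg_mem _ (Submodule.smul_mem _ _ hu)))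
        (Submodule.mem_sup_right (Submodule.smul_mem _ _ (Submodule.mem_span_singleton_self _)))
  obtain ⟨l1, p1, p2, p3, p4⟩ := QG2_fun U hgr a b hab
  obtain ⟨l2, q1, q2, q3, q4⟩ := QG2_fun U hgr b a hb
  exact ⟨a, b, l1, l2, p1, p2, q2, q1, p3, q3, p4, q4⟩

end QG2

section QG3
theorem QG3 {n : ℕ} {I : Ideal (P n)} (hI : I ≠ ⊤) (a : Fin n)
    (h : ∀ j : Fin n, ∃ f ∈ I, ∃ c : ℂ, ∀ k,
      (Pi.single j 1 : Fin n → ℂ) k = coeff (Finsupp.single k 1) f + c * (Pi.single a 1 : Fin n → ℂ) k) :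
    IsPrincipalIdealRing (P n ⧸ I) := by
  haveI : Nontrivial (P n ⧸ I) := Ideal.Quotient.nontrivial_iff.2 hI
  haveI : IsLocalRing (P n ⧸ I) :=
    IsLocalRing.of_surjective' (Ideal.Quotient.mk I) Ideal.Quotient.mk_surjective
  haveI : IsNoetherianRing (P n ⧸ I) := inferInstance
  have hI0 : ∀ f ∈ I, constantCoeff f = 0 := by
    intro f hf
    by_contra hne
    apply hI
    apply Ideal.eq_top_of_isUnit_mem I hf
    rw [MvPowerSeries.isUnit_iff_constantCoeff]
    exact isUnit_iff_ne_zero.2 hne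
  have hmem : ∀ g : P n, constantCoeff g = 0 →
      Ideal.Quotient.mk I g ∈ IsLocalRing.maximalIdeal (P n ⧸ I) := by
    intro g hg
    rw [IsLocalRing.mem_maximalIdeal, mem_nonunits_iff]
    intro hu
    obtain ⟨v, hv⟩ := hu.exists_right_inv
    obtain ⟨u, rfl⟩ := Ideal.Quotient.mk_surjective v
    rw [← map_mul, ← map_one (Ideal.Quotient.mk I), Ideal.Quotient.eq] at hv
    have h1 := hI0 _ hv
    rw [map_sub, map_mul, hg, zero_mul, map_one] at h1
    norm_num at h1
  have hconv : ∀ g : P n, Ideal.Quotient.mk I g ∈ IsLocalRing.maximalIdeal (P n ⧸ I) →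
      constantCoeff g = 0 := by
    intro g hg
    by_contra hne
    rw [IsLocalRing.mem_maximalIdeal, mem_nonunits_iff] at hg
    apply hg
    apply IsUnit.map
    rw [MvPowerSeries.isUnit_iff_constantCoeff]
    exact isUnit_iff_ne_zero.2 hne
  have hX : ∀ j : Fin n, Ideal.Quotient.mk I (X j : P n) ∈
      Ideal.span {Ideal.Quotient.mk I (X a : P n)} ⊔
        (IsLocalRing.maximalIdeal (P n ⧸ I)) • (IsLocalRing.maximalIdeal (P n ⧸ I)) := by
    intro j
    obtain ⟨f, hf, c, hc⟩ := h j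
    have hg0 : constantCoeff ((X j : P n) - f - C c * X a) = 0 := by
      rw [map_sub, map_sub, map_mul, hI0 f hf]
      simp
    obtain ⟨k, hk, hk0⟩ := QG0 _ hg0
    have hcoef : ∀ l, coeff (Finsupp.single l 1) ((X j : P n) - f - C c * X a) = 0 := by
      intro l
      have h1 := hc l
      rw [map_sub, map_sub, MvPowerSeries.coeff_C_mul, MvPowerSeries.coeff_X,
        MvPowerSeries.coeff_X]
      have e1 : ∀ b : Fin n, (if (Finsupp.single l 1 : Fin n →₀ ℕ) = Finsupp.single b 1 then (1 : ℂ)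
          else 0) = (Pi.single b 1 : Fin n → ℂ) l := by
        intro b
        by_cases hlb : l = b
        · subst hlb
          simp
        · rw [Pi.single_eq_of_ne hlb, if_neg]
          intro h2
          exact hlb ((Finsupp.single_left_inj one_ne_zero).1 h2)
      rw [e1, e1, h1]
      ring
    have hk1 : ∀ l, Ideal.Quotient.mk I (k l) ∈ IsLocalRing.maximalIdeal (P n ⧸ I) := by
      intro l
      apply hmem
      rw [hk0, hcoef]
    have hXm : ∀ l, Ideal.Quotient.mk I (X l : P n) ∈ IsLocalRing.maximalIdeal (P n ⧸ I) := by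
      intro l
      apply hmem
      simp
    have hsum : Ideal.Quotient.mk I ((X j : P n) - f - C c * X a) ∈
        (IsLocalRing.maximalIdeal (P n ⧸ I)) • (IsLocalRing.maximalIdeal (P n ⧸ I)) := by
      rw [hk, map_sum]
      refine Submodule.sum_mem _ fun l _ => ?_
      rw [map_mul]
      exact Submodule.smul_mem_smul (hXm l) (hk1 l)
    have hdec : Ideal.Quotient.mk I (X j : P n) =
        Ideal.Quotient.mk I (C c) * Ideal.Quotient.mk I (X a : P n) +
          Ideal.Quotient.mk I ((X j : P n) - f - C c * X a) := by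
      rw [map_sub, map_sub, map_mul, Ideal.Quotient.eq_zero_iff_mem.2 hf]
      ring
    rw [hdec]
    refine Submodule.add_mem _ ?_ ?_
    · exact Submodule.mem_sup_left (Ideal.mul_mem_left _ _ (Ideal.subset_span rfl))
    · exact Submodule.mem_sup_right hsum
  apply QG1 (Ideal.Quotient.mk I (X a : P n))
  apply le_antisymm
  · apply Submodule.le_of_le_smul_of_le_jacobson_bot (I := IsLocalRing.maximalIdeal (P n ⧸ I))
    · exact IsNoetherian.noetherian _
    · exact IsLocalRing.maximalIdeal_le_jacobson _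
    · intro y hy
      obtain ⟨g, rfl⟩ := Ideal.Quotient.mk_surjective y
      obtain ⟨k, hk, -⟩ := QG0 g (hconv g hy)
      rw [hk, map_sum]
      refine Submodule.sum_mem _ fun l _ => ?_
      rw [map_mul, mul_comm]
      exact Ideal.mul_mem_left _ _ (hX l)
  · rw [Ideal.span_le, Set.singleton_subset_iff]
    apply hmem
    simp

end QG3

section QG
theorem QG_zero (I : Ideal (P 0)) : IsPrincipalIdealRing (P 0 ⧸ I) := by
  refine ⟨fun J => ?_⟩
  by_cases hJ : J = ⊥
  · rw [hJ]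
    exact bot_isPrincipal
  · obtain ⟨x, hx, hx0⟩ := Submodule.exists_mem_ne_zero_of_ne_bot hJ
    obtain ⟨f, rfl⟩ := Ideal.Quotient.mk_surjective x
    have hf : f = C (coeff 0 f) := by
      ext m
      have hm : m = 0 := Subsingleton.elim _ _
      rw [hm, coeff_zero_C]
    have hc : coeff 0 f ≠ 0 := by
      intro h0
      apply hx0
      rw [hf, h0, map_zero, map_zero]
    have hu : IsUnit (Ideal.Quotient.mk I f) := by
      rw [hf]
      exact ((isUnit_iff_ne_zero.mpr hc).map C).map (Ideal.Quotient.mk I)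
    have hJt : J = ⊤ := Ideal.eq_top_of_isUnit_mem _ hx hu
    rw [hJt]
    exact top_isPrincipal

theorem QG {n : ℕ} {d : Fin n → ℕ} {I : Ideal (P n)} (hg : Graded d I) (hI : I ≠ ⊤)
    (hns : ¬ IsPrincipalIdealRing (P n ⧸ I)) :
    ∃ (a b : Fin n) (l1 l2 : Fin n → ℂ), l1 a = 1 ∧ l1 b = 0 ∧ l2 a = 0 ∧ l2 b = 1 ∧
      (∀ j, l1 j ≠ 0 → d j = d a) ∧ (∀ j, l2 j ≠ 0 → d j = d b) ∧
      (∀ f ∈ I, ∑ j, coeff (Finsupp.single j 1) f * l1 j = 0) ∧
      (∀ f ∈ I, ∑ j, coeff (Finsupp.single j 1) f * l2 j = 0) := by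
  let lin : P n →ₗ[ℂ] (Fin n → ℂ) := LinearMap.pi fun j => coeff (Finsupp.single j 1)
  have hlin : ∀ f j, lin f j = coeff (Finsupp.single j 1) f := fun f j => rfl
  let U : Submodule ℂ (Fin n → ℂ) := (I.restrictScalars ℂ).map lin
  have hU : ∀ f ∈ I, lin f ∈ U := fun f hf => ⟨f, hf, rfl⟩
  have h1 : ∀ a, U ⊔ Submodule.span ℂ {(Pi.single a 1 : Fin n → ℂ)} ≠ ⊤ := by
    intro a htop
    apply hns
    refine QG3 hI a fun j => ?_
    have hj : (Pi.single j 1 : Fin n → ℂ) ∈ U ⊔ Submodule.span ℂ {(Pi.single a 1 : Fin n → ℂ)} := by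
      rw [htop]
      exact Submodule.mem_top
    obtain ⟨y, hy, z, hz, hyz⟩ := Submodule.mem_sup.mp hj
    obtain ⟨f, hf, rfl⟩ := hy
    obtain ⟨c, rfl⟩ := Submodule.mem_span_singleton.mp hz
    refine ⟨f, hf, c, fun k => ?_⟩
    rw [← hyz]
    rfl
  have h0 : U ≠ ⊤ := by
    intro htop
    rcases Nat.eq_zero_or_pos n with hn | hn
    · subst hn
      exact hns (QG_zero I)
    · apply h1 ⟨0, hn⟩
      rw [htop, top_sup_eq]
  have hgr : ∀ u ∈ U, ∀ w : ℕ, (fun j => if d j = w then u j else 0) ∈ U := by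
    rintro _ ⟨f, hf, rfl⟩ w
    have h2 : (fun j => if d j = w then lin f j else 0) = lin (weightedHomogeneousComponent d w f) := by
      funext j
      rw [hlin, hlin, coeff_weightedHomogeneousComponent, Finsupp.weight_single, one_smul]
    rw [h2]
    exact hU _ (hg f hf w)
  obtain ⟨a, b, l1, l2, e1, e2, e3, e4, e5, e6, e7, e8⟩ := QG2 U h0 h1 hgr
  exact ⟨a, b, l1, l2, e1, e2, e3, e4, e5, e6, fun f hf => e7 _ (hU f hf), fun f hf => e8 _ (hU f hf)⟩

end QG

section QH1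
theorem QH1_leib {n : ℕ} (I : Ideal (P n)) (t : Fin n → P n ⧸ I) (a b : P n) :
    der I t (a * b) = Ideal.Quotient.mk I a * der I t b + Ideal.Quotient.mk I b * der I t a := by
  rw [Derivation.leibniz]
  rfl

theorem QH1_C {n : ℕ} (I : Ideal (P n)) (t : Fin n → P n ⧸ I) (a : ℂ) :
    der I t (C a) = 0 := by
  have : (C a : P n) = algebraMap ℂ (P n) a := rfl
  rw [this]
  exact Derivation.map_algebraMap _ _

theorem QH1 {n : ℕ} {I : Ideal (P n)} (t : Fin n → P n ⧸ I) (c : P n ⧸ I)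
    (h1 : ∀ i j, c ∣ Ideal.Quotient.mk I (X i) * t j + Ideal.Quotient.mk I (X j) * t i)
    (h2 : ∀ i j k, c ∣ Ideal.Quotient.mk I (X i) * Ideal.Quotient.mk I (X j) * t k)
    (f : P n) (hf : constantCoeff f = 0) :
    c ∣ der I t f - ∑ j, Ideal.Quotient.mk I (C (coeff (Finsupp.single j 1) f)) * t j := by
  obtain ⟨h, hfh, hc⟩ := QG0 f hf
  have hg : ∀ j, constantCoeff (h j - C (coeff (Finsupp.single j 1) f)) = 0 := by
    intro j
    rw [map_sub, hc, constantCoeff_C, sub_self]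
  choose H hH _ using fun j => QG0 _ (hg j)
  have hD : ∀ j, der I t (h j) = ∑ i, (Ideal.Quotient.mk I (X i) * der I t (H j i) +
      Ideal.Quotient.mk I (H j i) * t i) := by
    intro j
    have e1 : h j = C (coeff (Finsupp.single j 1) f) + ∑ i, X i * H j i := by
      rw [← hH j]; ring
    rw [e1, map_add, QH1_C, zero_add, map_sum]
    refine Finset.sum_congr rfl (fun i _ => ?_)
    rw [QH1_leib, (QA I t).2]
  have hmk : ∀ j, Ideal.Quotient.mk I (h j) = Ideal.Quotient.mk I (C (coeff (Finsupp.single j 1) f)) +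
      ∑ i, Ideal.Quotient.mk I (X i) * Ideal.Quotient.mk I (H j i) := by
    intro j
    have e1 : h j = C (coeff (Finsupp.single j 1) f) + ∑ i, X i * H j i := by
      rw [← hH j]; ring
    conv_lhs => rw [e1]
    rw [map_add, map_sum]
    simp only [map_mul]
  have hDf : der I t f = ∑ j, (Ideal.Quotient.mk I (X j) * der I t (h j) +
      Ideal.Quotient.mk I (h j) * t j) := by
    conv_lhs => rw [hfh]
    rw [map_sum]
    refine Finset.sum_congr rfl (fun j _ => ?_)
    rw [QH1_leib, (QA I t).2]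
  have hmain : der I t f - ∑ j, Ideal.Quotient.mk I (C (coeff (Finsupp.single j 1) f)) * t j =
      ∑ j, ∑ i, (Ideal.Quotient.mk I (X j) * Ideal.Quotient.mk I (X i) * der I t (H j i) +
        Ideal.Quotient.mk I (H j i) * (Ideal.Quotient.mk I (X j) * t i +
          Ideal.Quotient.mk I (X i) * t j)) := by
    rw [hDf, ← Finset.sum_sub_distrib]
    refine Finset.sum_congr rfl (fun j _ => ?_)
    rw [hD, hmk, add_mul, Finset.mul_sum, Finset.sum_mul]
    rw [show ∀ a b d : P n ⧸ I, a + (b + d) - b = a + d from fun a b d => by ring]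
    rw [← Finset.sum_add_distrib]
    refine Finset.sum_congr rfl (fun i _ => ?_)
    ring
  rw [hmain]
  refine Finset.dvd_sum (fun j _ => Finset.dvd_sum (fun i _ => dvd_add ?_ ?_))
  · rw [(QA I t).1, Finset.mul_sum]
    refine Finset.dvd_sum (fun k _ => ?_)
    have := h2 j i k
    have e : Ideal.Quotient.mk I (X j) * Ideal.Quotient.mk I (X i) *
        (Ideal.Quotient.mk I (pderiv ℂ k (H j i)) * t k) =
        (Ideal.Quotient.mk I (X j) * Ideal.Quotient.mk I (X i) * t k) *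
          Ideal.Quotient.mk I (pderiv ℂ k (H j i)) := by ring
    rw [e]
    exact Dvd.dvd.mul_right this _
  · exact Dvd.dvd.mul_left (h1 j i) _

end QH1


theorem F_const {n : ℕ} {I : Ideal (P n)} (hI : I ≠ ⊤) {f : P n} (hf : f ∈ I) :
    constantCoeff f = 0 := by
  by_contra h
  exact hI (Ideal.eq_top_of_isUnit_mem I hf
    ((MvPowerSeries.isUnit_iff_constantCoeff).2 (isUnit_iff_ne_zero.2 h)))

theorem F_one {n : ℕ} {d : Fin n → ℕ} (hd : ∀ i, 0 < d i) {I : Ideal (P n)} (hr : Rigid I)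
    (hI : I ≠ ⊤) {N : ℕ} (hN : 0 < N) {s : P n}
    (hs : Ideal.Quotient.mk I s ∈ nonZeroDivisors (P n ⧸ I))
    (hR : ∀ δ : Derivation ℂ (P n) (P n ⧸ I), (∀ f ∈ I, δ f = 0) → ∀ i,
      (N : P n ⧸ I) * Ideal.Quotient.mk I s * δ (X i) =
        (d i : P n ⧸ I) * Ideal.Quotient.mk I (X i) * δ s)
    {z : P n ⧸ I} (hzm : ∀ f : P n, constantCoeff f = 0 →
      Ideal.Quotient.mk I s ∣ Ideal.Quotient.mk I f * z)
    (l : Fin n → ℂ) (w : ℕ) (hw : ∀ j, l j ≠ 0 → d j = w)
    (hl : ∀ f ∈ I, ∑ j, coeff (Finsupp.single j 1) f * l j = 0) :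
    ∃ u : P n ⧸ I, ∀ j, ∃ r, Ideal.Quotient.mk I (X j) * u =
      Ideal.Quotient.mk I (C (l j)) * (Ideal.Quotient.mk I s * z) +
        Ideal.Quotient.mk I s ^ 2 * r := by
  set t : Fin n → P n ⧸ I := fun j => Ideal.Quotient.mk I (C (l j)) * z with ht
  have hX : ∀ i, ∃ r, Ideal.Quotient.mk I (X i) * z = Ideal.Quotient.mk I s * r := fun i =>
    hzm (X i) (by simp)
  have h1 : ∀ i j, Ideal.Quotient.mk I s ∣ Ideal.Quotient.mk I (X i) * t j +
      Ideal.Quotient.mk I (X j) * t i := by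
    intro i j
    obtain ⟨r, hr1⟩ := hX i
    obtain ⟨r', hr2⟩ := hX j
    refine ⟨Ideal.Quotient.mk I (C (l j)) * r + Ideal.Quotient.mk I (C (l i)) * r', ?_⟩
    simp only [ht]
    linear_combination Ideal.Quotient.mk I (C (l j)) * hr1 + Ideal.Quotient.mk I (C (l i)) * hr2
  have h2 : ∀ i j k, Ideal.Quotient.mk I s ∣ Ideal.Quotient.mk I (X i) *
      Ideal.Quotient.mk I (X j) * t k := by
    intro i j k
    obtain ⟨r, hr1⟩ := hX j
    refine ⟨Ideal.Quotient.mk I (C (l k)) * Ideal.Quotient.mk I (X i) * r, ?_⟩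
    simp only [ht]
    linear_combination Ideal.Quotient.mk I (C (l k)) * Ideal.Quotient.mk I (X i) * hr1
  have hθ : ∀ f ∈ I, Ideal.Quotient.mk I s ∣ der I t f := by
    intro f hf
    have h3 := QH1 t _ h1 h2 f (F_const hI hf)
    have h4 : ∑ j, Ideal.Quotient.mk I (C (coeff (Finsupp.single j 1) f)) * t j = 0 := by
      have : ∑ j, Ideal.Quotient.mk I (C (coeff (Finsupp.single j 1) f)) * t j =
          Ideal.Quotient.mk I (C (∑ j, coeff (Finsupp.single j 1) f * l j)) * z := by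
        rw [map_sum, map_sum, Finset.sum_mul]
        refine Finset.sum_congr rfl fun j _ => ?_
        simp only [ht, map_mul]
        ring
      rw [this, hl f hf]
      simp
    rwa [h4, sub_zero] at h3
  obtain ⟨δ, hδ0, hδ⟩ := QB hr _ hs (der I t) hθ
  refine ⟨Ideal.Quotient.mk I (C ((w : ℂ) / N)) * δ s, fun j => ?_⟩
  obtain ⟨r, hr1⟩ := hδ (X j)
  rw [(QA I t).2 j] at hr1
  have hRj := hR δ hδ0 j
  have hN' : (N : ℂ) ≠ 0 := by exact_mod_cast hN.ne'
  have hdj : (d j : ℂ) ≠ 0 := by exact_mod_cast (hd j).ne'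
  have e1 : (N : P n ⧸ I) = Ideal.Quotient.mk I (C (N : ℂ)) := by simp
  have e2 : (d j : P n ⧸ I) = Ideal.Quotient.mk I (C (d j : ℂ)) := by simp
  rw [e1, e2] at hRj
  have k1 : Ideal.Quotient.mk I (C ((w : ℂ) / (N * d j))) * Ideal.Quotient.mk I (C (N : ℂ)) =
      Ideal.Quotient.mk I (C ((w : ℂ) / d j)) := by
    rw [← map_mul, ← map_mul]
    congr 2
    field_simp
  have k2 : Ideal.Quotient.mk I (C ((w : ℂ) / (N * d j))) * Ideal.Quotient.mk I (C (d j : ℂ)) =
      Ideal.Quotient.mk I (C ((w : ℂ) / N)) := by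
    rw [← map_mul, ← map_mul]
    congr 2
    field_simp
  have k3 : Ideal.Quotient.mk I (C ((w : ℂ) / d j)) * Ideal.Quotient.mk I (C (l j)) =
      Ideal.Quotient.mk I (C (l j)) := by
    rw [← map_mul, ← map_mul]
    congr 2
    by_cases h : l j = 0
    · simp [h]
    · rw [hw j h] at hdj ⊢
      field_simp
  refine ⟨Ideal.Quotient.mk I (C ((w : ℂ) / d j)) * r, ?_⟩
  have ht' : t j = Ideal.Quotient.mk I (C (l j)) * z := rfl
  rw [ht'] at hr1
  linear_combination (-(Ideal.Quotient.mk I (C ((w : ℂ) / (N * d j))))) * hRj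
    - (Ideal.Quotient.mk I (X j) * δ s) * k2 + (Ideal.Quotient.mk I s * δ (X j)) * k1
    + Ideal.Quotient.mk I (C ((w : ℂ) / d j)) * Ideal.Quotient.mk I s * hr1
    + Ideal.Quotient.mk I s * z * k3

theorem F_two {n : ℕ} {d : Fin n → ℕ} (hd : ∀ i, 0 < d i) {I : Ideal (P n)} (hr : Rigid I)
    (hI : I ≠ ⊤) {N : ℕ} (hN : 0 < N) {s : P n}
    (hs : Ideal.Quotient.mk I s ∈ nonZeroDivisors (P n ⧸ I))
    (hR : ∀ δ : Derivation ℂ (P n) (P n ⧸ I), (∀ f ∈ I, δ f = 0) → ∀ i,
      (N : P n ⧸ I) * Ideal.Quotient.mk I s * δ (X i) =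
        (d i : P n ⧸ I) * Ideal.Quotient.mk I (X i) * δ s)
    {z : P n ⧸ I} (hz : ¬ Ideal.Quotient.mk I s ∣ z)
    (hzm : ∀ f : P n, constantCoeff f = 0 →
      Ideal.Quotient.mk I s ∣ Ideal.Quotient.mk I f * z)
    (a b : Fin n) (l1 l2 : Fin n → ℂ) (h1a : l1 a = 1) (h1b : l1 b = 0) (h2a : l2 a = 0)
    (h2b : l2 b = 1) (hw1 : ∀ j, l1 j ≠ 0 → d j = d a) (hw2 : ∀ j, l2 j ≠ 0 → d j = d b)
    (hl1 : ∀ f ∈ I, ∑ j, coeff (Finsupp.single j 1) f * l1 j = 0)
    (hl2 : ∀ f ∈ I, ∑ j, coeff (Finsupp.single j 1) f * l2 j = 0) : False := by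
  obtain ⟨u1, hu1⟩ := F_one hd hr hI hN hs hR hzm l1 (d a) hw1 hl1
  obtain ⟨u2, hu2⟩ := F_one hd hr hI hN hs hR hzm l2 (d b) hw2 hl2
  set t : Fin n → P n ⧸ I := fun j => Ideal.Quotient.mk I (C (l1 j)) * u2 -
    Ideal.Quotient.mk I (C (l2 j)) * u1 with ht
  have hX : ∀ i, ∃ r, Ideal.Quotient.mk I (X i) * z = Ideal.Quotient.mk I s * r := fun i =>
    hzm (X i) (by simp)
  have h1 : ∀ i j, Ideal.Quotient.mk I s ^ 2 ∣ Ideal.Quotient.mk I (X i) * t j +
      Ideal.Quotient.mk I (X j) * t i := by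
    intro i j
    obtain ⟨r1, hr1⟩ := hu1 i
    obtain ⟨r2, hr2⟩ := hu2 i
    obtain ⟨r3, hr3⟩ := hu1 j
    obtain ⟨r4, hr4⟩ := hu2 j
    refine ⟨Ideal.Quotient.mk I (C (l1 j)) * r2 - Ideal.Quotient.mk I (C (l2 j)) * r1 +
      Ideal.Quotient.mk I (C (l1 i)) * r4 - Ideal.Quotient.mk I (C (l2 i)) * r3, ?_⟩
    simp only [ht]
    linear_combination Ideal.Quotient.mk I (C (l1 j)) * hr2 - Ideal.Quotient.mk I (C (l2 j)) * hr1
      + Ideal.Quotient.mk I (C (l1 i)) * hr4 - Ideal.Quotient.mk I (C (l2 i)) * hr3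
  have hXu1 : ∀ i j, ∃ r, Ideal.Quotient.mk I (X i) * Ideal.Quotient.mk I (X j) * u1 =
      Ideal.Quotient.mk I s ^ 2 * r := by
    intro i j
    obtain ⟨r1, hr1⟩ := hu1 j
    obtain ⟨r, hr0⟩ := hX i
    refine ⟨Ideal.Quotient.mk I (C (l1 j)) * r + Ideal.Quotient.mk I (X i) * r1, ?_⟩
    linear_combination Ideal.Quotient.mk I (X i) * hr1 +
      Ideal.Quotient.mk I (C (l1 j)) * Ideal.Quotient.mk I s * hr0
  have hXu2 : ∀ i j, ∃ r, Ideal.Quotient.mk I (X i) * Ideal.Quotient.mk I (X j) * u2 =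
      Ideal.Quotient.mk I s ^ 2 * r := by
    intro i j
    obtain ⟨r1, hr1⟩ := hu2 j
    obtain ⟨r, hr0⟩ := hX i
    refine ⟨Ideal.Quotient.mk I (C (l2 j)) * r + Ideal.Quotient.mk I (X i) * r1, ?_⟩
    linear_combination Ideal.Quotient.mk I (X i) * hr1 +
      Ideal.Quotient.mk I (C (l2 j)) * Ideal.Quotient.mk I s * hr0
  have h2 : ∀ i j k, Ideal.Quotient.mk I s ^ 2 ∣ Ideal.Quotient.mk I (X i) *
      Ideal.Quotient.mk I (X j) * t k := by
    intro i j k
    obtain ⟨r1, hr1⟩ := hXu1 i j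
    obtain ⟨r2, hr2⟩ := hXu2 i j
    refine ⟨Ideal.Quotient.mk I (C (l1 k)) * r2 - Ideal.Quotient.mk I (C (l2 k)) * r1, ?_⟩
    simp only [ht]
    linear_combination Ideal.Quotient.mk I (C (l1 k)) * hr2 - Ideal.Quotient.mk I (C (l2 k)) * hr1
  have hθ : ∀ f ∈ I, Ideal.Quotient.mk I s ^ 2 ∣ der I t f := by
    intro f hf
    have h3 := QH1 t _ h1 h2 f (F_const hI hf)
    have h4 : ∑ j, Ideal.Quotient.mk I (C (coeff (Finsupp.single j 1) f)) * t j = 0 := by
      have : ∑ j, Ideal.Quotient.mk I (C (coeff (Finsupp.single j 1) f)) * t j =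
          Ideal.Quotient.mk I (C (∑ j, coeff (Finsupp.single j 1) f * l1 j)) * u2 -
          Ideal.Quotient.mk I (C (∑ j, coeff (Finsupp.single j 1) f * l2 j)) * u1 := by
        rw [map_sum, map_sum, Finset.sum_mul, map_sum, map_sum, Finset.sum_mul,
          ← Finset.sum_sub_distrib]
        refine Finset.sum_congr rfl fun j _ => ?_
        simp only [ht, map_mul]
        ring
      rw [this, hl1 f hf, hl2 f hf]
      simp
    rwa [h4, sub_zero] at h3
  obtain ⟨δ, hδ0, hδ⟩ := QB hr _ (pow_mem hs 2) (der I t) hθ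
  obtain ⟨ra, hra⟩ := hδ (X a)
  obtain ⟨rb, hrb⟩ := hδ (X b)
  rw [(QA I t).2] at hra hrb
  have hta : t a = u2 := by simp [ht, h1a, h2a]
  have htb : t b = - u1 := by simp [ht, h1b, h2b]
  rw [hta] at hra
  rw [htb] at hrb
  obtain ⟨r1, hr1⟩ := hu1 a
  obtain ⟨r2, hr2⟩ := hu2 b
  rw [h1a] at hr1
  rw [h2b] at hr2
  simp only [map_one, one_mul] at hr1 hr2
  have hRa := hR δ hδ0 a
  have hRb := hR δ hδ0 b
  set q := Ideal.Quotient.mk I with hq
  have hN' : (N : ℂ) ≠ 0 := by exact_mod_cast hN.ne'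
  have e1 : (N : P n ⧸ I) = q (C (N : ℂ)) := by simp
  have kN : q (C ((N : ℂ)⁻¹)) * (N : P n ⧸ I) = 1 := by
    rw [e1, ← map_mul, ← map_mul, inv_mul_cancel₀ hN']
    simp
  have hcan : ∀ y, q s * y = 0 → y = 0 := fun y hy => by
    have := (mem_nonZeroDivisors_iff.1 hs).1 y hy
    exact this
  have key : (d b : P n ⧸ I) * q (X b) * δ (X a) - (d a : P n ⧸ I) * q (X a) * δ (X b) = 0 := by
    apply hcan
    have : (N : P n ⧸ I) * (q s * ((d b : P n ⧸ I) * q (X b) * δ (X a) -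
        (d a : P n ⧸ I) * q (X a) * δ (X b))) = 0 := by
      linear_combination (d b : P n ⧸ I) * q (X b) * hRa - (d a : P n ⧸ I) * q (X a) * hRb
    calc q s * ((d b : P n ⧸ I) * q (X b) * δ (X a) - (d a : P n ⧸ I) * q (X a) * δ (X b))
        = (q (C ((N : ℂ)⁻¹)) * (N : P n ⧸ I)) * (q s * ((d b : P n ⧸ I) * q (X b) * δ (X a) -
        (d a : P n ⧸ I) * q (X a) * δ (X b))) := by rw [kN, one_mul]
      _ = 0 := by rw [mul_assoc, this, mul_zero]
  have key2 : q s * (((d a : P n ⧸ I) + (d b : P n ⧸ I)) * z + q s *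
      ((d b : P n ⧸ I) * (r2 + q (X b) * ra) + (d a : P n ⧸ I) * (r1 - q (X a) * rb))) = 0 := by
    linear_combination key - (d b : P n ⧸ I) * hr2 - (d a : P n ⧸ I) * hr1
      - (d b : P n ⧸ I) * q (X b) * hra + (d a : P n ⧸ I) * q (X a) * hrb
  have key3 := hcan _ key2
  have hdd : ((d a : ℂ) + (d b : ℂ)) ≠ 0 := by
    have := hd a
    exact_mod_cast (by omega : d a + d b ≠ 0)
  have e3 : (d a : P n ⧸ I) + (d b : P n ⧸ I) = q (C ((d a : ℂ) + (d b : ℂ))) := by simp
  have kd : q (C (((d a : ℂ) + (d b : ℂ))⁻¹)) * ((d a : P n ⧸ I) + (d b : P n ⧸ I)) = 1 := by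
    rw [e3, ← map_mul, ← map_mul, inv_mul_cancel₀ hdd]
    simp
  apply hz
  refine ⟨- q (C (((d a : ℂ) + (d b : ℂ))⁻¹)) *
      ((d b : P n ⧸ I) * (r2 + q (X b) * ra) + (d a : P n ⧸ I) * (r1 - q (X a) * rb)), ?_⟩
  linear_combination q (C (((d a : ℂ) + (d b : ℂ))⁻¹)) * key3 - z * kd

theorem main {n : ℕ} {d : Fin n → ℕ} (hd : ∀ i, 0 < d i) {I : Ideal (P n)}
    (hrad : I.IsRadical) (hdim : ringKrullDim (P n ⧸ I) = 1)
    (hns : ¬ IsPrincipalIdealRing (P n ⧸ I)) (hg : Graded d I) : ¬ Rigid I := by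
  intro hr
  have hI : I ≠ ⊤ := by
    rintro rfl
    have : Subsingleton (P n ⧸ (⊤ : Ideal (P n))) := Ideal.Quotient.subsingleton_iff.2 rfl
    rw [ringKrullDim_eq_bot_of_subsingleton] at hdim
    exact absurd hdim (by simp)
  obtain ⟨N, s, hN, hsh, hs0, hs⟩ := QE hd hrad hdim
  obtain ⟨⟨K, hK⟩, z, hz, hzm⟩ := QF hdim hs0 hs
  obtain ⟨M, hM⟩ := QD1 hd hg hN hsh hK
  obtain ⟨a, b, l1, l2, h1a, h1b, h2a, h2b, hw1, hw2, hl1, hl2⟩ := QG hg hI hns
  refine F_two hd hr hI hN hs ?_ hz hzm a b l1 l2 h1a h1b h2a h2b hw1 hw2 hl1 hl2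
  intro δ hδ i
  refine QC hrad hN (hd i) (X i) s hs ?_ δ hδ
  intro p hp
  obtain ⟨c, hc, hcI⟩ := QD2 hsh hM i
  haveI : p.IsPrime := hp.1.1
  have hsp : Ideal.Quotient.mk I s ∉ p := by
    intro hmem
    exact (Set.disjoint_left.1 (Ideal.disjoint_nonZeroDivisors_of_mem_minimalPrimes hp)) hmem hs
  refine QD3 p (X i ^ N) (s ^ d i) ?_ c hc hcI
  rw [map_pow]
  intro h
  exact hsp (this.mem_of_pow_mem _ h)

end Pool.Agent.QH
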